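import Pool.Agent.Helper13.TR.StB

set_option autoImplicit false

namespace Pool.Agent.Helper2.TR

open Set Topology Pool.Agent.Helper13.TR

theorem hCLO : StCLO := by
  intro Z _ _ L hL y hy O hO hyO
  obtain ⟨hLc, hLt⟩ := hL
  have : CompactSpace L := isCompact_iff_compactSpace.mp hLc
  have : TotallyDisconnectedSpace L :=
    totallyDisconnectedSpace_subtype_iff.mpr hLt
  have hOL : IsOpen ((↑) ⁻¹' O : Set L) := hO.preimage continuous_subtype_val
  obtain ⟨V, hV, hyV, hVO⟩ := compact_exists_isClopen_in_isOpen hOL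
    (show (⟨y, hy⟩ : L) ∈ ((↑) ⁻¹' O : Set L) from hyO)
  have hcl : ∀ S : Set L, IsClosed S → IsClosed ((↑) '' S : Set Z) := fun S hS =>
    (hS.isCompact.image continuous_subtype_val).isClosed
  refine ⟨(↑) '' V, (↑) '' Vᶜ, hcl V hV.1, hcl _ hV.2.isClosed_compl, ?_, ?_, ?_, ?_⟩
  · rw [← image_union, union_compl_self, image_univ, Subtype.range_coe]
  · rintro z ⟨w, hw, rfl⟩
    exact hVO hw
  · rintro ⟨w, hw, hwy⟩
    apply hw
    have : w = ⟨y, hy⟩ := Subtype.ext hwy
    rw [this]
    exact hyV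
  · rw [← image_inter Subtype.val_injective, inter_compl_self, image_empty]

end Pool.Agent.Helper2.TR
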