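import Pool.Agent.Helper13.TR.StA

set_option autoImplicit false

namespace Pool.Agent.Helper2.TR

open Set Topology Pool.Agent.Helper13.TR

theorem hOPN (hSM : StSM) (hSDA : StSDA) (hPSH : StPSH) (hMON : StMON) (hEXI : StEXI) : StOPN := by
  intro X _ _ U hU hX
  set i : C(↥U, X) := ⟨Subtype.val, continuous_subtype_val⟩ with hi
  obtain ⟨p1, _, p3, _, p5, p6⟩ := hPSH ↥U X X i (ContinuousMap.id X)
  obtain ⟨m1, _, m3, m4, _, _⟩ := hMON X
  obtain ⟨u1, _, _, _, _, _⟩ := hMON ↥U
  obtain ⟨s1, _, _, _, _⟩ := hSDA X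
  have hinj : Function.Injective i := Subtype.val_injective
  have hpre : ∀ x : ↥U, (i ⁻¹' {(x : X)} : Set ↥U) = {x} := by
    intro x
    ext y
    simp only [mem_preimage, mem_singleton_iff]
    exact ⟨fun h => Subtype.ext h, fun h => by rw [h]; rfl⟩
  have hprec : ∀ x : ↥U, (i ⁻¹' {(x : X)}ᶜ : Set ↥U) = {x}ᶜ := by
    intro x
    rw [preimage_compl, hpre]
  -- relative cycles go to relative cycles
  have hcyc : ∀ (x : ↥U) (k : ℕ) (c : Ch ↥U k), c ∈ Cyc {x} k → push i k c ∈ Cyc {(x : X)} k := by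
    intro x k c hc
    cases k with
    | zero => exact Submodule.mem_top
    | succ k =>
      change bd k (push i (k + 1) c) ∈ cin {(x : X)}ᶜ k
      rw [p1]
      apply p3
      rw [hprec]
      exact hc
  -- excision
  have hexi : ∀ (x : ↥U) (k : ℕ) (c : Ch ↥U k), push i k c ∈ Nul {(x : X)} k → c ∈ Nul {x} k := by
    intro x k c hc
    have h := hEXI X U {(x : X)} hU isClosed_singleton (singleton_subset_iff.mpr x.2) k c hc
    have e : (Subtype.val ⁻¹' {(x : X)} : Set ↥U) = {x} := hpre x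
    rwa [e] at h
  -- the other direction
  have hnul : ∀ (x : ↥U) (k : ℕ) (c : Ch ↥U k), c ∈ Nul {x} k → push i k c ∈ Nul {(x : X)} k := by
    intro x k c hc
    obtain ⟨a, ha, b, ⟨e, rfl⟩, rfl⟩ := Submodule.mem_sup.mp hc
    rw [map_add, ← p1]
    refine Submodule.add_mem_sup (p3 _ _ _ ?_) (LinearMap.mem_range_self _ _)
    rw [hprec]
    exact ha
  refine ⟨?_, ?_⟩
  · intro x k hk c hc
    exact hexi x k c (hX.low x k hk (hcyc x k c hc))
  · intro x
    obtain ⟨N, hN, hxN, c, hc, hgen⟩ := hX.ori (x : X)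
    obtain ⟨V, hxV, hVo, hVc⟩ : ∃ V : Set X, (x : X) ∈ V ∧ IsOpen V ∧ closure V ⊆ U ∩ N := by
      obtain ⟨V, hV1, hV2, hV3⟩ := exists_mem_nhds_isClosed_subset
        ((hU.inter hN).mem_nhds (show (x : X) ∈ U ∩ N from ⟨x.2, hxN⟩))
      refine ⟨interior V, mem_interior_iff_mem_nhds.mpr hV1, isOpen_interior, ?_⟩
      exact (closure_minimal interior_subset hV2).trans hV3
    have hO2 : IsOpen (closure V)ᶜ := isClosed_closure.isOpen_compl
    have huniv : U ∪ (closure V)ᶜ = univ := by
      rw [eq_univ_iff_forall]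
      intro z
      by_cases hz : z ∈ closure V
      · exact Or.inl (hVc hz).1
      · exact Or.inr hz
    have hbc : bd 2 c ∈ cin (closure V)ᶜ 2 :=
      m1 Nᶜ (closure V)ᶜ 2 (compl_subset_compl.mpr fun z hz => (hVc hz).2) hc
    obtain ⟨c1, hc1, c2, hc2, e, _, hce⟩ := hSM X U (closure V)ᶜ hU hO2 3 c
      (by rw [huniv, m3]; exact Submodule.mem_top)
      (show bd 2 c ∈ cin U 2 ⊔ cin (closure V)ᶜ 2 from Submodule.mem_sup_right hbc)
    have hUi : (i '' univ : Set X) = U := by
      rw [image_univ]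
      exact Subtype.range_coe
    obtain ⟨c', _, hc'⟩ := p5 (show IsEmbedding (i : ↥U → X) from IsEmbedding.subtypeVal) univ 3 c1
      (by rw [hUi]; exact hc1)
    refine ⟨i ⁻¹' V, hVo.preimage i.continuous, hxV, c', ?_, ?_⟩
    · change bd 2 c' ∈ cin (i ⁻¹' V)ᶜ 2
      have h1 : bd 2 c1 ∈ cin (closure V)ᶜ 2 := by
        have e1 : bd 2 c1 = bd 2 c - bd 2 c2 := by
          rw [hce, map_add, map_add, s1]
          abel
        rw [e1]
        exact Submodule.sub_mem _ hbc (m4 _ _ _ hc2)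
      rw [← hc', p1] at h1
      have h2 := p6 hinj _ _ _ h1
      refine u1 _ _ 2 ?_ h2
      rw [preimage_compl]
      exact compl_subset_compl.mpr (preimage_mono subset_closure)
    · intro y hy
      have hyV : (y : X) ∈ V := hy
      have hyN : (y : X) ∈ N := (hVc (subset_closure hyV)).2
      obtain ⟨g1, g2⟩ := hgen (y : X) hyN
      have hd : c - c1 ∈ Nul {(y : X)} 3 := by
        have e1 : c - c1 = c2 + bd 3 e := by rw [hce]; abel
        rw [e1]
        refine Submodule.add_mem_sup (m1 _ _ 3 ?_ hc2) (LinearMap.mem_range_self _ _)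
        exact compl_subset_compl.mpr (singleton_subset_iff.mpr (subset_closure hyV))
      refine ⟨?_, ?_⟩
      · intro κ hκ
        obtain ⟨m, hm⟩ := g1 _ (hcyc y 3 κ hκ)
        refine ⟨m, hexi y 3 _ ?_⟩
        have e2 : push i 3 (κ - m • c') = (push i 3 κ - m • c) + m • (c - c1) := by
          rw [map_sub, map_zsmul, hc', smul_sub]
          abel
        rw [e2]
        exact Submodule.add_mem _ hm (Submodule.smul_mem _ m hd)
      · intro m hm
        apply g2
        have h3 := hnul y 3 _ hm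
        rw [map_zsmul, hc'] at h3
        have e3 : m • c = m • c1 + m • (c - c1) := by
          rw [smul_sub]; abel
        rw [e3]
        exact Submodule.add_mem _ h3 (Submodule.smul_mem _ m hd)

end Pool.Agent.Helper2.TR
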